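import Mathlib
import Pool.Agent.Q130.EMC.Unif

/-!
# The Erdős matching conjecture up to a factor `1 + ε`, uniformly in the matching number

For `r`-uniform hypergraphs on `n ≥ n0(r, ε)` vertices the conjectured bound holds up to the factor
`1 + ε` for all `k` with `r k - 1 ≤ n` if `r ≤ 5`, and for every `r` if `(k - 1) / n` is not strictly
between `1/(r+5/8)` and `1/(r+2/5)`. It holds without the factor for `n ≥ (r + 39/40) (k - 1)`,
`n ≥ n0(r)`.

The hard work is in the starting modules `Pool.Agent.W890.SF`, `Pool.Agent.W593.IR` and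
`Pool.Agent.W205.K5`; the uniform form is proved in `Pool.Agent.Q130.EMC.Unif`.
-/

set_option autoImplicit false

namespace Pool.Agent.Results.MP_1aab60_co.UniformAsymptotic

open Finset Pool.Agent.W890.SF

/-- the hypergraph `F` has no `k`-matching -/
def NoMatching {n : ℕ} (F : Finset (Finset (Fin n))) (k : ℕ) : Prop :=
  ¬ ∃ M : Finset (Finset (Fin n)), M ⊆ F ∧ M.card = k ∧
    ∀ a ∈ M, ∀ b ∈ M, a ≠ b → Disjoint a b

/-- the conjectured maximum `max {A(r,k), B(n,r,k)}` -/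
def bound (n r k : ℕ) : ℕ :=
  max (Nat.choose (r * k - 1) r) (Nat.choose n r - Nat.choose (n - k + 1) r)

theorem card_le_mm {n r s : ℕ} (F : Finset (Finset (Fin n))) (hF : ∀ e ∈ F, e.card = r)
    (hM : NoMatching F (s + 1)) : F.card ≤ mm n r s := by
  apply R2.le_mm F hF
  intro M hMF hd
  by_contra hcon
  obtain ⟨M', hM', hc⟩ := Finset.exists_subset_card_eq (show s + 1 ≤ M.card by omega)
  apply hM
  refine ⟨M', hM'.trans hMF, hc, ?_⟩
  intro a ha b hb hab
  exact hd (hM' ha) (hM' hb) hab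

/-- (1) For every `r ≥ 2` and `ε > 0`, all large `n` and all `k ≥ 1` with `r k - 1 ≤ n`: an
`r`-uniform hypergraph on `n` vertices without a `k`-matching has at most
`(1 + ε) max {A(r,k), B(n,r,k)}` edges, provided that `r ≤ 5` or `n ≥ (r + 5/8) (k - 1)` or
`n ≤ (r + 2/5) (k - 1)`. (2) For every `r ≥ 2`, all large `n` and all `k ≥ 1` with
`n ≥ (r + 39/40) (k - 1)` the Erdős matching conjecture holds exactly. -/
theorem result (r : ℕ) (hr : 2 ≤ r) :
    (∀ ε : ℝ, 0 < ε → ∃ n0 : ℕ, ∀ n : ℕ, n0 ≤ n → ∀ k : ℕ, 1 ≤ k → r * k - 1 ≤ n →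
      (r ≤ 5 ∨ (8 * r + 5) * (k - 1) ≤ 8 * n ∨ 5 * n ≤ (5 * r + 2) * (k - 1)) →
      ∀ F : Finset (Finset (Fin n)), (∀ e ∈ F, e.card = r) → NoMatching F k →
        (F.card : ℝ) ≤ (1 + ε) * (bound n r k : ℝ)) ∧
    (∃ n0 : ℕ, ∀ n : ℕ, n0 ≤ n → ∀ k : ℕ, 1 ≤ k → (40 * r + 39) * (k - 1) ≤ 40 * n →
      r * k - 1 ≤ n ∧
      (∀ F : Finset (Finset (Fin n)), (∀ e ∈ F, e.card = r) → NoMatching F k →
        F.card ≤ bound n r k) ∧
      (∃ F : Finset (Finset (Fin n)), (∀ e ∈ F, e.card = r) ∧ NoMatching F k ∧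
        F.card = bound n r k)) := by
  constructor
  · intro ε hε
    obtain ⟨n0, h0⟩ := Pool.Agent.Q130.EMC.main r hr hε
    refine ⟨max n0 1, fun n hn k hk hkn h F hF hM => ?_⟩
    obtain ⟨s, rfl⟩ : ∃ s, k = s + 1 := ⟨k - 1, by omega⟩
    simp only [Nat.add_sub_cancel] at h
    have hrs : r * (s + 1) = r * s + r := by ring
    have h1 := h0 n (le_trans (le_max_left _ _) hn) s (by omega) h
    have hsn : s + 1 ≤ n ∨ s = 0 := by
      rcases Nat.eq_zero_or_pos s with h | h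
      · exact Or.inr h
      · left
        have : 2 * s ≤ r * s := Nat.mul_le_mul_right s hr
        omega
    have hn1 : 1 ≤ n := le_trans (le_max_right _ _) hn
    have e1 : n - (s + 1) + 1 = n - s := by omega
    have e2 : (bound n r (s + 1) : ℝ) = (Pool.Agent.Q130.EMC.MX n r s : ℝ) := by
      unfold bound Pool.Agent.Q130.EMC.MX
      rw [e1, max_comm]
    rw [e2]
    have h2 : (F.card : ℝ) ≤ mm n r s := by exact_mod_cast card_le_mm F hF hM
    exact h2.trans h1
  · obtain ⟨n0, h0⟩ := R2.form2 t_EMC t_LOW r hr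
    refine ⟨n0, fun n hn k hk hkn => ?_⟩
    obtain ⟨h1, -, h2, h3⟩ := h0 n hn k hk hkn
    exact ⟨h1, h2, h3⟩

end Pool.Agent.Results.MP_1aab60_co.UniformAsymptotic
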